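import Mathlib

/-!
# Perfect images of weakly θ-refinable spaces are weakly θ-refinable

No separation axioms are assumed.  Let `f : X → Y` be perfect, `𝒰` an open cover of `Y`.
Take open families `𝒱 n` in `X`, refining the inverse image of `𝒰`, such that every point of `X`
is, for some `n`, in exactly one member of `𝒱 n`; let `X n` be the set of these points.

* `kernel_step`: let `F ⊆ X` be closed.  The points `z` of `Y` such that `F ∩ f ⁻¹ z` meets `X n`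
  and is covered by `𝒱 n` can be treated with countably many open families refining `𝒰`: the
  finite subfamilies of `𝒱 n` which cover `F ∩ f ⁻¹ z` have a nonempty finite intersection (the
  kernel of `z`), and the kernels of the points near `z` are contained in the kernel of `z`.
* `kernel_step` is applied to the closed sets `F R`, `R` a finite set of natural numbers, the
  complement of the union of the families `𝒱 n`, `n ∈ R`.  If a point `y` of `Y` escapes, then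
  adding to `R` the least `n` such that `F R ∩ f ⁻¹ y` meets `X n`, again and again, one gets a
  decreasing sequence of nonempty closed subsets of the compact fibre of `y`, and a point in all
  of them is in no `X n`.
-/

set_option autoImplicit false

namespace Pool.Agent.Results.MP_55e6a3_gt.PerfectImages

open Set Topology

universe u v

/-- A space is weakly θ-refinable if every open cover `𝒰` has an open refinement which is the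
union of families `𝒱 n` such that every point is, for some `n`, in at least one and in only
finitely many members of `𝒱 n`. -/
def WeaklyThetaRefinable (X : Type u) [TopologicalSpace X] : Prop :=
  ∀ 𝒰 : Set (Set X), (∀ U ∈ 𝒰, IsOpen U) → ⋃₀ 𝒰 = univ →
    ∃ 𝒱 : ℕ → Set (Set X), (∀ n, ∀ V ∈ 𝒱 n, IsOpen V ∧ ∃ U ∈ 𝒰, V ⊆ U) ∧
      ∀ x, ∃ n, {V ∈ 𝒱 n | x ∈ V}.Nonempty ∧ {V ∈ 𝒱 n | x ∈ V}.Finite

/-- A perfect mapping: a continuous closed surjection with compact fibres. -/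
structure PerfectMapping {X : Type u} {Y : Type v} [TopologicalSpace X] [TopologicalSpace Y]
    (f : X → Y) : Prop where
  continuous : Continuous f
  surjective : Function.Surjective f
  isClosedMap : IsClosedMap f
  isCompact_fiber : ∀ y : Y, IsCompact (f ⁻¹' {y})

section step

variable {X : Type u} {Y : Type v} [TopologicalSpace X] [TopologicalSpace Y]

/-- the finite subfamilies of `𝒱` which cover the part in `F` of the fibre of `z` -/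
def Cov (f : X → Y) (F : Set X) (𝒱 : Set (Set X)) (z : Y) : Set (Finset (Set X)) :=
  {𝓕 | (∀ V ∈ 𝓕, V ∈ 𝒱) ∧ ∀ x ∈ F, f x = z → ∃ V ∈ 𝓕, x ∈ V}

/-- the sets which are in all the finite subfamilies `Cov f F 𝒱 z` -/
def Ker (f : X → Y) (F : Set X) (𝒱 : Set (Set X)) (z : Y) : Set (Set X) :=
  {V | ∀ 𝓕 ∈ Cov f F 𝒱 z, V ∈ 𝓕}

omit [TopologicalSpace X] [TopologicalSpace Y] in
theorem ker_finite {f : X → Y} {F : Set X} {𝒱 : Set (Set X)} {z : Y}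
    (h : (Cov f F 𝒱 z).Nonempty) : (Ker f F 𝒱 z).Finite := by
  obtain ⟨𝓕, h𝓕⟩ := h
  exact 𝓕.finite_toSet.subset fun V hV => hV 𝓕 h𝓕

theorem open_cov {f : X → Y} (hf : IsClosedMap f) {F : Set X} (hF : IsClosed F)
    {𝒱 : Set (Set X)} (h𝒱 : ∀ V ∈ 𝒱, IsOpen V) (𝓕 : Finset (Set X)) (h : ∀ V ∈ 𝓕, V ∈ 𝒱) :
    IsOpen {z | 𝓕 ∈ Cov f F 𝒱 z} := by
  have h1 : IsClosed (f '' (F ∩ (⋃ V ∈ 𝓕, V)ᶜ)) :=
    hf _ (hF.inter (isOpen_biUnion fun V hV => h𝒱 V (h V hV)).isClosed_compl)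
  convert h1.isOpen_compl using 1
  ext z
  simp only [Cov, mem_ofPred_eq, mem_compl_iff, mem_image, mem_inter_iff, mem_iUnion, not_exists,
    not_and, exists_prop]
  constructor
  · rintro ⟨-, h2⟩ x ⟨h3, h4⟩ h5
    obtain ⟨V, h6, h7⟩ := h2 x h3 h5
    exact h4 V h6 h7
  · intro h2
    refine ⟨h, fun x h3 h4 => ?_⟩
    by_contra h5
    push Not at h5
    exact h2 x ⟨h3, h5⟩ h4

theorem ker_nhd {f : X → Y} (hf : IsClosedMap f) {F : Set X} (hF : IsClosed F)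
    {𝒱 : Set (Set X)} (h𝒱 : ∀ V ∈ 𝒱, IsOpen V) (z : Y) (hz : (Cov f F 𝒱 z).Nonempty) :
    ∃ O : Set Y, IsOpen O ∧ z ∈ O ∧ ∀ z' ∈ O, Ker f F 𝒱 z' ⊆ Ker f F 𝒱 z := by
  obtain ⟨𝓕, h𝓕⟩ := hz
  have h1 : ∀ W : Set X, ∃ 𝓖 ∈ Cov f F 𝒱 z, W ∈ 𝓖 → W ∈ Ker f F 𝒱 z := by
    intro W
    by_cases h : W ∈ Ker f F 𝒱 z
    · exact ⟨𝓕, h𝓕, fun _ => h⟩
    · simp only [Ker, mem_ofPred_eq, not_forall] at h
      obtain ⟨𝓖, h2, h3⟩ := h
      exact ⟨𝓖, h2, fun h4 => absurd h4 h3⟩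
  choose G hG1 hG2 using h1
  refine ⟨{z' | 𝓕 ∈ Cov f F 𝒱 z'} ∩ ⋂ W ∈ 𝓕, {z' | G W ∈ Cov f F 𝒱 z'}, ?_, ?_, ?_⟩
  · exact (open_cov hf hF h𝒱 𝓕 h𝓕.1).inter
      (isOpen_biInter_finset fun W _ => open_cov hf hF h𝒱 _ (hG1 W).1)
  · exact ⟨h𝓕, mem_iInter₂.2 fun W _ => hG1 W⟩
  · rintro z' ⟨h2, h3⟩ V hV
    have h4 : V ∈ 𝓕 := hV 𝓕 h2
    exact hG2 V (hV _ (mem_iInter₂.1 h3 V h4))

/-- The points of `Y` whose fibre meets the closed set `F` in a set which is covered by `𝒱` and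
contains a point in exactly one member of `𝒱`. -/
theorem kernel_step {f : X → Y} (hf : PerfectMapping f) {𝒰 : Set (Set Y)}
    (h𝒰 : ∀ U ∈ 𝒰, IsOpen U) {F : Set X} (hF : IsClosed F) {𝒱 : Set (Set X)}
    (h𝒱 : ∀ V ∈ 𝒱, IsOpen V ∧ ∃ U ∈ 𝒰, V ⊆ f ⁻¹' U) :
    ∃ 𝒢 : ℕ → Set (Set Y), (∀ m, ∀ G ∈ 𝒢 m, IsOpen G ∧ ∃ U ∈ 𝒰, G ⊆ U) ∧
      ∀ z, (∀ x ∈ F, f x = z → ∃ V ∈ 𝒱, x ∈ V) → (∃ x ∈ F, f x = z ∧ ∃! V, V ∈ 𝒱 ∧ x ∈ V) →
        ∃ m, {G ∈ 𝒢 m | z ∈ G}.Nonempty ∧ {G ∈ 𝒢 m | z ∈ G}.Finite := by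
  classical
  have hop : ∀ V ∈ 𝒱, IsOpen V := fun V hV => (h𝒱 V hV).1
  have hU : ∀ V : Set X, ∃ U : Set Y, V ∈ 𝒱 → U ∈ 𝒰 ∧ V ⊆ f ⁻¹' U := by
    intro V
    by_cases h : V ∈ 𝒱
    · obtain ⟨U, h1, h2⟩ := (h𝒱 V h).2
      exact ⟨U, fun _ => ⟨h1, h2⟩⟩
    · exact ⟨∅, fun h' => absurd h' h⟩
  choose U hU using hU
  have hO : ∀ z : Y, ∃ O : Set Y, IsOpen O ∧ ((Cov f F 𝒱 z).Nonempty → z ∈ O) ∧
      ∀ z' ∈ O, Ker f F 𝒱 z' ⊆ Ker f F 𝒱 z := by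
    intro z
    by_cases h : (Cov f F 𝒱 z).Nonempty
    · obtain ⟨O, h1, h2, h3⟩ := ker_nhd hf.isClosedMap hF hop z h
      exact ⟨O, h1, fun _ => h2, h3⟩
    · exact ⟨∅, isOpen_empty, fun h' => absurd h' h, fun _ h' => absurd h' (by simp)⟩
  choose O hO1 hO2 hO3 using hO
  refine ⟨fun m => {G | ∃ ℰ : Set (Set X), ℰ.Finite ∧ ℰ.ncard = m ∧ ∃ V ∈ ℰ, V ∈ 𝒱 ∧
    G = (⋃ z ∈ {z | Ker f F 𝒱 z = ℰ}, O z) ∩ U V}, ?_, ?_⟩
  · rintro m G ⟨ℰ, -, -, V, -, hV, rfl⟩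
    exact ⟨(isOpen_biUnion fun z _ => hO1 z).inter (h𝒰 _ (hU V hV).1), U V, (hU V hV).1,
      inter_subset_right⟩
  · rintro z h1 ⟨x, hx, hxz, V, ⟨hV, hxV⟩, hV'⟩
    have hne : (Cov f F 𝒱 z).Nonempty := by
      have hc : IsCompact (f ⁻¹' {z} ∩ F) := (hf.isCompact_fiber z).inter_right hF
      obtain ⟨t, t1, t2, t3⟩ := hc.elim_finite_subcover_image (b := 𝒱) (c := fun W => W) hop
        (fun w hw => by
          obtain ⟨W, hW, hw'⟩ := h1 w hw.2 hw.1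
          exact mem_biUnion hW hw')
      refine ⟨t2.toFinset, fun W hW => t1 (t2.mem_toFinset.1 hW), fun w hw hw' => ?_⟩
      obtain ⟨W, hW, h2⟩ := mem_iUnion₂.1 (t3 ⟨hw', hw⟩)
      exact ⟨W, t2.mem_toFinset.2 hW, h2⟩
    have hVK : V ∈ Ker f F 𝒱 z := by
      intro 𝓕 h𝓕
      obtain ⟨W, hW, h2⟩ := h𝓕.2 x hx hxz
      rwa [← hV' W ⟨h𝓕.1 W hW, h2⟩]
    have hzU : z ∈ U V := by
      have := (hU V hV).2 hxV
      rwa [mem_preimage, hxz] at this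
    refine ⟨(Ker f F 𝒱 z).ncard, ⟨(⋃ w ∈ {w | Ker f F 𝒱 w = Ker f F 𝒱 z}, O w) ∩ U V,
      ⟨Ker f F 𝒱 z, ker_finite hne, rfl, V, hVK, hV, rfl⟩,
      mem_biUnion (show z ∈ {w | Ker f F 𝒱 w = Ker f F 𝒱 z} from rfl) (hO2 z hne), hzU⟩, ?_⟩
    refine ((ker_finite hne).image fun W =>
      (⋃ w ∈ {w | Ker f F 𝒱 w = Ker f F 𝒱 z}, O w) ∩ U W).subset ?_
    rintro G ⟨⟨ℰ, h2, h3, W, hW, -, rfl⟩, h4, -⟩
    obtain ⟨w, hw, h5⟩ := mem_iUnion₂.1 h4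
    have h6 : Ker f F 𝒱 z ⊆ ℰ := (hO3 w z h5).trans (le_of_eq hw)
    have h7 : Ker f F 𝒱 z = ℰ := eq_of_subset_of_ncard_le h6 (le_of_eq h3) h2
    subst h7
    exact ⟨W, hW, rfl⟩

end step

/-- Families for which every point is in exactly one member of one of them. -/
theorem exists_unique_families {X : Type u} [TopologicalSpace X] (h : WeaklyThetaRefinable X)
    (𝒰 : Set (Set X)) (h𝒰 : ∀ U ∈ 𝒰, IsOpen U) (hc : ⋃₀ 𝒰 = univ) :
    ∃ 𝒱 : ℕ → Set (Set X), (∀ n, ∀ V ∈ 𝒱 n, IsOpen V ∧ ∃ U ∈ 𝒰, V ⊆ U) ∧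
      ∀ x, ∃ n, ∃! V, V ∈ 𝒱 n ∧ x ∈ V := by
  classical
  obtain ⟨𝒲, h1, h2⟩ := h 𝒰 h𝒰 hc
  refine ⟨fun j => {S | ∃ ℰ : Finset (Set X), ℰ.Nonempty ∧ (∀ W ∈ ℰ, W ∈ 𝒲 j.unpair.1) ∧
    ℰ.card = j.unpair.2 ∧ S = ⋂ W ∈ ℰ, W}, ?_, fun x => ?_⟩
  · rintro j _ ⟨ℰ, ⟨W, hW⟩, h3, -, rfl⟩
    obtain ⟨U, hU, h4⟩ := (h1 _ W (h3 W hW)).2
    exact ⟨isOpen_biInter_finset fun V hV => (h1 _ V (h3 V hV)).1, U, hU,
      (biInter_subset_of_mem hW).trans h4⟩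
  · obtain ⟨n, ⟨W, hW⟩, h3⟩ := h2 x
    refine ⟨Nat.pair n h3.toFinset.card, ⋂ V ∈ h3.toFinset, V, ⟨⟨h3.toFinset,
      ⟨W, h3.mem_toFinset.2 hW⟩, fun V hV => ?_, ?_, rfl⟩, ?_⟩, ?_⟩
    · rw [Nat.unpair_pair]; exact (h3.mem_toFinset.1 hV).1
    · rw [Nat.unpair_pair]
    · exact mem_iInter₂.2 fun V hV => (h3.mem_toFinset.1 hV).2
    · rintro S ⟨⟨ℰ, h4, h5, h6, rfl⟩, h7⟩
      rw [Nat.unpair_pair] at h5 h6
      have h8 : ℰ ⊆ h3.toFinset := fun V hV =>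
        h3.mem_toFinset.2 ⟨h5 V hV, mem_iInter₂.1 h7 V hV⟩
      rw [Finset.eq_of_subset_of_card_le h8 (le_of_eq h6.symm)]

/-- **Perfect images of weakly θ-refinable spaces are weakly θ-refinable**, without separation
axioms. -/
theorem result {X : Type u} {Y : Type v} [TopologicalSpace X] [TopologicalSpace Y] (f : X → Y)
    (hf : PerfectMapping f) (hX : WeaklyThetaRefinable X) : WeaklyThetaRefinable Y := by
  classical
  intro 𝒰 h𝒰 hc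
  obtain ⟨𝒱, h1, h2⟩ := exists_unique_families hX {S | ∃ U ∈ 𝒰, S = f ⁻¹' U}
    (by rintro _ ⟨U, hU, rfl⟩; exact (h𝒰 U hU).preimage hf.continuous)
    (eq_univ_of_forall fun x => by
      obtain ⟨U, hU, hx⟩ := mem_sUnion.1 (hc ▸ mem_univ (f x))
      exact ⟨_, ⟨U, hU, rfl⟩, hx⟩)
  have h1' : ∀ n, ∀ V ∈ 𝒱 n, IsOpen V ∧ ∃ U ∈ 𝒰, V ⊆ f ⁻¹' U := by
    intro n V hV
    obtain ⟨h3, _, ⟨U, hU, rfl⟩, h4⟩ := h1 n V hV
    exact ⟨h3, U, hU, h4⟩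
  set F : Finset ℕ → Set X := fun R => {x | ∀ n ∈ R, ∀ V ∈ 𝒱 n, x ∉ V} with hFdef
  have hF : ∀ R, IsClosed (F R) := by
    intro R
    have h3 : F R = ⋂ n ∈ R, (⋃ V ∈ 𝒱 n, V)ᶜ := by
      ext x
      simp [hFdef]
    rw [h3]
    exact isClosed_biInter fun n _ =>
      (isOpen_biUnion fun V hV => (h1 n V hV).1).isClosed_compl
  choose 𝒢 hG1 hG2 using fun (R : Finset ℕ) (n : ℕ) => kernel_step hf h𝒰 (hF R) (h1' n)
  obtain ⟨e, he⟩ := exists_surjective_nat (Finset ℕ × ℕ × ℕ)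
  refine ⟨fun k => 𝒢 (e k).1 (e k).2.1 (e k).2.2, fun k => hG1 _ _ _, fun y => ?_⟩
  by_contra hy
  have key : ∀ R n, (∃ x ∈ F R, f x = y ∧ ∃! V, V ∈ 𝒱 n ∧ x ∈ V) →
      ∃ x ∈ F (insert n R), f x = y := by
    intro R n h3
    by_contra h4
    push Not at h4
    obtain ⟨m, h5⟩ := hG2 R n y (fun x hx hxy => by
      by_contra h6
      push Not at h6
      refine h4 x (fun k hk V hV => ?_) hxy
      rcases Finset.mem_insert.1 hk with rfl | hk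
      · exact h6 V hV
      · exact hx k hk V hV) h3
    obtain ⟨k, hk⟩ := he (R, n, m)
    exact hy ⟨k, by simpa [hk] using h5⟩
  have hex : ∀ R, (∃ x ∈ F R, f x = y) → ∃ n, ∃ x ∈ F R, f x = y ∧ ∃! V, V ∈ 𝒱 n ∧ x ∈ V := by
    rintro R ⟨x, hx, hxy⟩
    obtain ⟨n, hn⟩ := h2 x
    exact ⟨n, x, hx, hxy, hn⟩
  -- the finite sets with nonempty intersection, with the least next element
  have hstep : ∀ R : {R : Finset ℕ // ∃ x ∈ F R, f x = y}, ∃ n,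
      (∃ x ∈ F (insert n R.1), f x = y) ∧ n ∉ R.1 ∧
      ∀ x ∈ F R.1, f x = y → ∀ m, (∃! V, V ∈ 𝒱 m ∧ x ∈ V) → n ≤ m := by
    intro R
    have h3 := hex R.1 R.2
    refine ⟨Nat.find h3, key _ _ (Nat.find_spec h3), fun h4 => ?_, fun x hx hxy m hm =>
      Nat.find_min' h3 ⟨x, hx, hxy, hm⟩⟩
    obtain ⟨x, hx, -, V, hV, -⟩ := Nat.find_spec h3
    exact hx _ h4 V hV.1 hV.2
  choose ν ν1 ν2 ν3 using hstep
  obtain ⟨y0, hy0⟩ := hf.surjective y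
  let R : ℕ → {R : Finset ℕ // ∃ x ∈ F R, f x = y} := fun j =>
    Nat.rec ⟨∅, y0, fun n hn => absurd hn (by simp), hy0⟩
      (fun _ R => ⟨insert (ν R) R.1, ν1 R⟩) j
  have hR : ∀ j, (R (j + 1)).1 = insert (ν (R j)) (R j).1 := fun j => rfl
  have hcard : ∀ j, (R j).1.card = j := by
    intro j
    induction j with
    | zero => rfl
    | succ j ih => rw [hR, Finset.card_insert_of_notMem (ν2 _), ih]
  have hmono : Monotone fun j => (R j).1 :=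
    monotone_nat_of_le_succ fun j => by
      rw [hR]; exact Finset.subset_insert _ _
  obtain ⟨x, hx1, hx2⟩ := (hf.isCompact_fiber y).inter_iInter_nonempty (fun j => F (R j).1)
    (fun j => hF _) (fun t => by
      obtain ⟨x, hx, hxy⟩ := (R (t.sup id)).2
      exact ⟨x, hxy, mem_iInter₂.2 fun j hj n hn =>
        hx n (hmono (Finset.le_sup (f := id) hj) hn)⟩)
  obtain ⟨m, hm⟩ := h2 x
  have h3 : ∀ j, (R j).1 ⊆ Finset.range (m + 1) := by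
    intro j
    induction j with
    | zero => exact Finset.empty_subset _
    | succ j ih =>
      rw [hR]
      refine Finset.insert_subset (Finset.mem_range_succ_iff.2 ?_) ih
      exact ν3 (R j) x (mem_iInter.1 hx2 j) hx1 m hm
  have h4 : (R (m + 2)).1.card ≤ m + 1 :=
    (Finset.card_le_card (h3 (m + 2))).trans_eq (Finset.card_range _)
  have h5 : (R (m + 2)).1.card = m + 2 := hcard (m + 2)
  exact absurd (h5 ▸ h4) (by simp)

end Pool.Agent.Results.MP_55e6a3_gt.PerfectImages
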